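import Pool.Agent.Lib_helper51.TR.B

/-!
# Nilpotent trisections relative to the boundary: symplectic bases

The argument of helper81 (`Pool.Agent.Lib_helper81.NT.Homl`) on the free group.
-/

namespace Pool.Agent.NR

open Subgroup Pool.Agent.NT
open scoped commutatorElement IsMulCommutative Matrix

section Hml

variable {g : ℕ}

/-- the vector of the exponent sums -/
noncomputable def exF (x : FreeGroup (Fin g ⊕ Fin g)) : Fin g ⊕ Fin g → ℤ := ex (TR.pr g x)

theorem pr_of (j : Fin g ⊕ Fin g) : TR.pr g (FreeGroup.of j) = lt j := rfl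

theorem exF_of (j : Fin g ⊕ Fin g) : exF (FreeGroup.of j) = Pi.single j 1 := by
  rw [exF, pr_of, ex_lt]

theorem hom_exF {A : Type} [CommGroup A] (φ : FreeGroup (Fin g ⊕ Fin g) →* A)
    (x : FreeGroup (Fin g ⊕ Fin g)) : φ x = ∏ j, φ (FreeGroup.of j) ^ exF x j := by
  obtain ⟨φ', rfl⟩ := TR.descend (f := φ) (by
    rw [← TR.rho_of]
    exact rho_comm _)
  exact hom_ex φ' (TR.pr g x)

/-- the commutator in the center of the quotient by `lcs 2` -/
noncomputable def cc (u v : FreeGroup (Fin g ⊕ Fin g)) : center (FreeGroup (Fin g ⊕ Fin g) ⧸ lcs (FreeGroup (Fin g ⊕ Fin g)) 2) :=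
  kap 0 v ⟨u, mem_top u⟩

theorem cc_val (u v : FreeGroup (Fin g ⊕ Fin g)) :
    ((cc u v : center (FreeGroup (Fin g ⊕ Fin g) ⧸ lcs (FreeGroup (Fin g ⊕ Fin g)) 2)) :
      FreeGroup (Fin g ⊕ Fin g) ⧸ lcs (FreeGroup (Fin g ⊕ Fin g)) 2) = qm (FreeGroup (Fin g ⊕ Fin g)) 2 ⁅u, v⁆ := rfl

theorem cc_mul_left (u u' v : FreeGroup (Fin g ⊕ Fin g)) : cc (u * u') v = cc u v * cc u' v :=
  Subtype.ext (qm_comm_mul_left (n := 0) (mem_top u') v)

theorem cc_mul_right (u v v' : FreeGroup (Fin g ⊕ Fin g)) : cc u (v * v') = cc u v * cc u v' :=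
  Subtype.ext (qm_comm_mul_right (n := 0) (mem_top u) v v')

theorem cc_self (u : FreeGroup (Fin g ⊕ Fin g)) : cc u u = 1 := by
  apply Subtype.ext
  rw [cc_val, commutatorElement_self, map_one]
  rfl

theorem cc_swap (u v : FreeGroup (Fin g ⊕ Fin g)) : cc v u = (cc u v)⁻¹ := by
  apply Subtype.ext
  rw [cc_val, Subgroup.coe_inv, cc_val, ← map_inv, commutatorElement_inv]

theorem cc_ex (u v : FreeGroup (Fin g ⊕ Fin g)) :
    Additive.ofMul (cc u v) = ∑ j, ∑ k, (exF u j * exF v k) • Additive.ofMul (cc (FreeGroup.of j) (FreeGroup.of k)) := by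
  have h1 : cc u v = ∏ j, cc (FreeGroup.of j) v ^ exF u j :=
    hom_exF (MonoidHom.mk' (fun u => cc u v) fun a b => cc_mul_left a b v) u
  have h2 : ∀ j, cc (FreeGroup.of j) v = ∏ k, cc (FreeGroup.of j) (FreeGroup.of k) ^ exF v k := fun j =>
    hom_exF (MonoidHom.mk' (fun v => cc (FreeGroup.of j) v) fun a b => cc_mul_right (FreeGroup.of j) a b) v
  rw [h1, ofMul_prod]
  refine Finset.sum_congr rfl fun j _ => ?_
  rw [ofMul_zpow, h2, ofMul_prod, Finset.smul_sum]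
  refine Finset.sum_congr rfl fun k _ => ?_
  rw [ofMul_zpow, mul_smul]

theorem rho_cc (z : Fin g ⊕ Fin g → FreeGroup (Fin g ⊕ Fin g)) :
    qm (FreeGroup (Fin g ⊕ Fin g)) 2 (rho z) = ((∏ h : Fin g, cc (z (Sum.inl h)) (z (Sum.inr h)) :
      center (FreeGroup (Fin g ⊕ Fin g) ⧸ lcs (FreeGroup (Fin g ⊕ Fin g)) 2)) :
        FreeGroup (Fin g ⊕ Fin g) ⧸ lcs (FreeGroup (Fin g ⊕ Fin g)) 2) := by
  have h := ofFn_central (fun _ : Fin g => (1 : FreeGroup (Fin g ⊕ Fin g) ⧸ lcs (FreeGroup (Fin g ⊕ Fin g)) 2))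
    fun h => cc (z (Sum.inl h)) (z (Sum.inr h))
  have h1 : (List.ofFn fun _ : Fin g =>
      (1 : FreeGroup (Fin g ⊕ Fin g) ⧸ lcs (FreeGroup (Fin g ⊕ Fin g)) 2)).prod = 1 := by
    refine List.prod_eq_one fun x hx => ?_
    rw [List.mem_ofFn] at hx
    obtain ⟨_, rfl⟩ := hx
    rfl
  rw [h1, one_mul] at h
  rw [← h, rho, map_list_prod, List.map_ofFn]
  congr 2
  funext h
  rw [one_mul]
  rfl

theorem rho_symp (z : Fin g ⊕ Fin g → FreeGroup (Fin g ⊕ Fin g))
    (h : ∀ r s, om (exF (z r)) (exF (z s)) = Jm g r s) :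
    rho z * (rho FreeGroup.of)⁻¹ ∈ lcs (FreeGroup (Fin g ⊕ Fin g)) 2 := by
  let M : Matrix (Fin g ⊕ Fin g) (Fin g ⊕ Fin g) ℤ := Matrix.of fun r => exF (z r)
  have h1 : M * (Jm g * Mᵀ) = Jm g := by
    ext r s
    rw [gram_Jm]
    exact h r s
  have h2 : Mᵀ * Jm g * M = Jm g := by
    have h3 : M * (Jm g * Mᵀ * (-Jm g)) = 1 := by
      rw [← mul_assoc, h1, Jm_sq]
    rw [mul_eq_one_comm] at h3
    have h4 : -Jm g * Jm g = 1 := by
      rw [mul_eq_one_comm, Jm_sq]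
    have h5 : -Jm g * (Jm g * Mᵀ * (-Jm g) * M) = -Jm g := by rw [h3, mul_one]
    rw [← mul_assoc, ← mul_assoc, ← mul_assoc, h4, one_mul, mul_neg, neg_mul, neg_inj] at h5
    exact h5
  have h3 : ∀ j k, ∑ h : Fin g, (M (Sum.inl h) j * M (Sum.inr h) k -
      M (Sum.inr h) j * M (Sum.inl h) k) = Jm g j k := by
    intro j k
    have h4 : (Mᵀ * Jm g * M) j k = om (Mᵀ j) (Mᵀ k) := by
      have h5 := gram_Jm Mᵀ j k
      rw [Matrix.transpose_transpose, ← mul_assoc] at h5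
      exact h5
    rw [h2] at h4
    rw [h4]
    rfl
  have h4 : ∀ j k : Fin g ⊕ Fin g, ∑ h : Fin g,
      ((if Sum.inl h = j then 1 else 0) * (if Sum.inr h = k then 1 else 0) -
      (if Sum.inr h = j then 1 else 0) * (if Sum.inl h = k then 1 else 0)) = Jm g j k := by
    intro j k
    rcases j with j | j <;> rcases k with k | k
    · simp [Jm]
    · simp [Jm, Matrix.one_apply]
      exact if_congr ⟨fun h => h.symm, fun h => h.symm⟩ rfl rfl
    · simp [Jm, Matrix.one_apply]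
      exact if_congr ⟨fun h => h.symm, fun h => h.symm⟩ rfl rfl
    · simp [Jm]
  let S : Fin g ⊕ Fin g → Fin g ⊕ Fin g → ℤ := fun j k =>
    ∑ h : Fin g, M (Sum.inl h) j * M (Sum.inr h) k
  let S0 : Fin g ⊕ Fin g → Fin g ⊕ Fin g → ℤ := fun j k =>
    ∑ h : Fin g, (if (Sum.inl h : Fin g ⊕ Fin g) = j then 1 else 0) *
      (if (Sum.inr h : Fin g ⊕ Fin g) = k then 1 else 0)
  have h5 : ∀ j k, S j k - S0 j k = S k j - S0 k j := by
    intro j k
    have h6 := (h3 j k).trans (h4 j k).symm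
    rw [Finset.sum_sub_distrib, Finset.sum_sub_distrib] at h6
    have h7 : ∑ h : Fin g, M (Sum.inr h) j * M (Sum.inl h) k = S k j :=
      Finset.sum_congr rfl fun h _ => mul_comm _ _
    have h8 : ∑ h : Fin g, (if (Sum.inr h : Fin g ⊕ Fin g) = j then 1 else 0) *
        (if (Sum.inl h : Fin g ⊕ Fin g) = k then 1 else 0) = S0 k j :=
      Finset.sum_congr rfl fun h _ => mul_comm _ _
    rw [h7, h8] at h6
    have h9 : S j k - S k j = S0 j k - S0 k j := h6
    linarith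
  have h6 := sym_alt (fun j k => S j k - S0 j k)
    (fun j k => Additive.ofMul (cc (FreeGroup.of j) (FreeGroup.of k) :
      center (FreeGroup (Fin g ⊕ Fin g) ⧸ lcs (FreeGroup (Fin g ⊕ Fin g)) 2))) h5
    (fun j => congrArg Additive.ofMul (cc_self (FreeGroup.of j)))
    (fun j k => congrArg Additive.ofMul (cc_swap (FreeGroup.of j) (FreeGroup.of k)))
  have h7 : ∀ (y : Fin g ⊕ Fin g → FreeGroup (Fin g ⊕ Fin g)),
      Additive.ofMul (∏ h : Fin g, cc (y (Sum.inl h)) (y (Sum.inr h)) :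
        center (FreeGroup (Fin g ⊕ Fin g) ⧸ lcs (FreeGroup (Fin g ⊕ Fin g)) 2)) =
      ∑ j, ∑ k, (∑ h : Fin g, exF (y (Sum.inl h)) j * exF (y (Sum.inr h)) k) •
        Additive.ofMul (cc (FreeGroup.of j) (FreeGroup.of k) :
          center (FreeGroup (Fin g ⊕ Fin g) ⧸ lcs (FreeGroup (Fin g ⊕ Fin g)) 2)) := by
    intro y
    rw [ofMul_prod]
    simp only [cc_ex (y _), Finset.sum_smul]
    rw [Finset.sum_comm]
    refine Finset.sum_congr rfl fun j _ => ?_
    rw [Finset.sum_comm]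
  have h9 : (∏ h : Fin g, cc (z (Sum.inl h)) (z (Sum.inr h)) :
      center (FreeGroup (Fin g ⊕ Fin g) ⧸ lcs (FreeGroup (Fin g ⊕ Fin g)) 2)) =
      ∏ h : Fin g, cc (FreeGroup.of (Sum.inl h)) (FreeGroup.of (Sum.inr h)) := by
    have h10 := h7 z
    have h11 := h7 FreeGroup.of
    simp only [sub_smul, Finset.sum_sub_distrib] at h6
    have h12 : ∀ j k, S0 j k = ∑ h : Fin g, exF (FreeGroup.of (Sum.inl h)) j *
        exF (FreeGroup.of (Sum.inr h)) k := by
      intro j k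
      refine Finset.sum_congr rfl fun h _ => ?_
      rw [exF_of, exF_of, Pi.single_apply, Pi.single_apply]
      congr 1
      · exact if_congr ⟨fun h => h.symm, fun h => h.symm⟩ rfl rfl
      · exact if_congr ⟨fun h => h.symm, fun h => h.symm⟩ rfl rfl
    simp only [h12] at h6
    rw [← h11, sub_eq_zero] at h6
    exact congrArg Additive.toMul (h10.trans h6)
  rw [← qm_one, map_mul, map_inv, rho_cc, rho_cc, h9, mul_inv_cancel]

end Hml

end Pool.Agent.NR
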