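import Pool.Agent.Lib_helper51.NR.Core
import Pool.Agent.Lib_helper51.NR.Symp

/-!
# Nilpotent trisections relative to the boundary: adapted symplectic generators

The argument of helper81 (`Pool.Agent.Lib_helper81.NT.Basis`), and the step to the free group.
-/

namespace Pool.Agent.NR

open Subgroup Pool.Agent.NT
open scoped commutatorElement IsMulCommutative Matrix

section

variable {g : ℕ} {k : Fin 3 → ℕ} {f : Fin 3 → SurfaceGroup g →* FreeGroup (Fin g)}

theorem exists_symp (hf : IsTrisection g k f) (c : Fin g → Fin 3)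
    (hc : ∀ l, Fintype.card {h // c h = l} = k l) :
    ∃ z : Fin g ⊕ Fin g → SurfaceGroup g, Adapted c f z ∧
      ∀ r s, om (ex (z r)) (ex (z s)) = Jm g r s := by
  classical
  choose q hq hqk using exists_q hf c hc
  -- third indices
  have third : ∀ i l : Fin 3, i ≠ l → ∃ j, i ≠ j ∧ j ≠ l := by decide
  have third' : ∀ i l : Fin 3, ∃ j, j ≠ i ∧ j ≠ l := by decide
  have hker : ∀ (l i : Fin 3), i ≠ l → (f i).ker ≤ (q l).ker := by
    intro l i hi
    obtain ⟨j, h1, h2⟩ := third i l hi
    rw [hqk l i j h1 hi h2]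
    exact le_sup_left
  let χ : Fin g → SurfaceGroup g →* Multiplicative ℤ := fun h =>
    (lam (⟨h, rfl⟩ : {h' // c h' = c h})).comp (q (c h))
  have hχ : ∀ h x, Multiplicative.toAdd (χ h x) =
      Multiplicative.toAdd (lam (⟨h, rfl⟩ : {h' // c h' = c h}) (q (c h) x)) := fun _ _ => rfl
  have hχ0 : ∀ h x, q (c h) x = 1 → Multiplicative.toAdd (χ h x) = 0 := by
    intro h x hx
    rw [hχ, hx, map_one]
    rfl
  -- the elements `u`
  have hu : ∀ h i, i ≠ c h → ∃ u ∈ (f i).ker, ex u = dv (χ h) := by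
    intro h i hi
    have h1 : (f i).ker ≤ (χ h).ker := by
      intro x hx
      have h2 := hker (c h) i hi hx
      rw [MonoidHom.mem_ker] at h2 ⊢
      show lam _ (q (c h) x) = 1
      rw [h2, map_one]
    let μ : FreeGroup (Fin g) →* Multiplicative ℤ :=
      (f i).liftOfRightInverse _ (Function.rightInverse_surjInv (hf.surj i)) ⟨χ h, h1⟩
    have h2 : μ.comp (f i) = χ h := MonoidHom.liftOfRightInverse_comp _ _ _ ⟨χ h, h1⟩
    obtain ⟨u, hu1, hu2⟩ := mem_of_dv (f i) (hf.surj i) μ
    rw [h2] at hu2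
    exact ⟨u, hu1, hu2⟩
  -- the elements `X`
  have hX : ∀ h, ∃ x, (∀ i, i ≠ c h → x ∈ (f i).ker) ∧ ex x = dv (χ h) := by
    intro h
    have h12 : ∀ l : Fin 3, l + 1 ≠ l + 2 ∧ l + 1 ≠ l ∧ l + 2 ≠ l := by decide
    obtain ⟨h1, h2, h3⟩ := h12 (c h)
    obtain ⟨u, hu1, hu2⟩ := hu h (c h + 1) h2
    obtain ⟨u', hu1', hu2'⟩ := hu h (c h + 2) h3
    obtain ⟨x, hx1, hx2, hx3⟩ := lift_pair (q (c h)) (hq (c h)) (hqk (c h) _ _ h1 h2 h3) hu1 hu1'
      (ex_eq (hu2'.trans hu2.symm))
    refine ⟨x, ?_, ?_⟩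
    · have h4 : ∀ l i : Fin 3, i ≠ l → i = l + 1 ∨ i = l + 2 := by decide
      intro i hi
      rcases h4 (c h) i hi with rfl | rfl
      · exact hx1
      · exact hx2
    · have h5 := ex_of_lcs hx3
      rw [ex_mul, ex_inv] at h5
      rw [← hu2]
      exact (neg_add_eq_zero.1 h5).symm
  choose X hXk hXe using hX
  -- the elements `Y`
  have hY : ∀ h, ∃ y ∈ (f (c h)).ker, ∀ l (hl : c h = l), q l y = FreeGroup.of ⟨h, hl⟩ := by
    intro h
    have h1 : (f (c h)).ker ⊔ (q (c h)).ker = ⊤ := by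
      have h2 : ∀ i, (f i).ker ≤ (f (c h)).ker ⊔ (q (c h)).ker := by
        intro i
        by_cases hi : i = c h
        · rw [hi]
          exact le_sup_left
        · exact (hker (c h) i hi).trans le_sup_right
      rw [eq_top_iff, ← hf.triple]
      exact sup_le (sup_le (h2 0) (h2 1)) (h2 2)
    obtain ⟨x, hx⟩ := hq (c h) (FreeGroup.of ⟨h, rfl⟩)
    have h2 : x ∈ (f (c h)).ker ⊔ (q (c h)).ker := h1 ▸ mem_top x
    rw [mem_sup_of_normal_right] at h2
    obtain ⟨y, hy, w, hw, rfl⟩ := h2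
    refine ⟨y, hy, ?_⟩
    rintro l rfl
    rw [map_mul, MonoidHom.mem_ker.1 hw, mul_one] at hx
    exact hx
  choose Y hYk hYq using hY
  -- the elements `W`
  let a : Fin g → Fin g → ℤ := fun h h' => if c h < c h' then -om (ex (Y h)) (ex (Y h')) else 0
  have hW : ∀ h, ∃ w ∈ (f (c h)).ker, ex w = ∑ h', a h h' • ex (X h') := by
    intro h
    have h1 : ∑ h', a h h' • ex (X h') ∈ exS (f (c h)).ker := by
      refine AddSubgroup.sum_mem _ fun h' _ => ?_
      by_cases h2 : c h < c h'
      · have h3 : ex (X h') ∈ exS (f (c h)).ker := ⟨X h', hXk h' (c h) h2.ne, rfl⟩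
        exact zsmul_mem h3 _
      · have h3 : a h h' = 0 := if_neg h2
        rw [h3, zero_smul]
        exact AddSubgroup.zero_mem _
    exact h1
  choose W hWk hWe using hW
  -- the Gram matrix
  have gXX : ∀ h h', om (ex (X h)) (ex (X h')) = 0 := by
    intro h h'
    rw [hXe h, om_dv]
    obtain ⟨i, h1, h2⟩ := third' (c h) (c h')
    exact hχ0 h _ (hker (c h) i h1 (hXk h' i h2))
  have gXY : ∀ h h', om (ex (X h)) (ex (Y h')) = if h = h' then 1 else 0 := by
    intro h h'
    rw [hXe h, om_dv]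
    by_cases h1 : c h' = c h
    · rw [hχ, hYq h' (c h) h1, lam_of]
      refine if_congr ⟨fun h2 => ?_, fun h2 => ?_⟩ rfl rfl
      · exact (congrArg Subtype.val h2).symm
      · exact Subtype.ext h2.symm
    · rw [hχ0 h _ (hker (c h) (c h') h1 (hYk h')), if_neg]
      intro h2
      exact h1 (congrArg c h2.symm)
  have gXW : ∀ h h', om (ex (X h)) (ex (W h')) = 0 := by
    intro h h'
    rw [hWe, om_sum_right]
    exact Finset.sum_eq_zero fun i _ => by rw [gXX, mul_zero]
  have gWY : ∀ h h', om (ex (W h)) (ex (Y h')) = a h h' := by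
    intro h h'
    rw [hWe, om_sum_left, Finset.sum_eq_single h']
    · rw [gXY, if_pos rfl, mul_one]
    · intro i _ hi
      rw [gXY, if_neg hi, mul_zero]
    · exact fun h => absurd (Finset.mem_univ _) h
  have gWW : ∀ h h', om (ex (W h)) (ex (W h')) = 0 := by
    intro h h'
    rw [hWe h, om_sum_left]
    exact Finset.sum_eq_zero fun i _ => by rw [gXW, mul_zero]
  have gYY : ∀ h h', om (ex (Y h)) (ex (Y h')) + a h h' - a h' h = 0 := by
    intro h h'
    rcases lt_trichotomy (c h) (c h') with h1 | h1 | h1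
    · have h2 : a h h' = -om (ex (Y h)) (ex (Y h')) := if_pos h1
      have h3 : a h' h = 0 := if_neg (not_lt.2 h1.le)
      rw [h2, h3]
      ring
    · have h2 : a h h' = 0 := if_neg (by rw [h1]; exact lt_irrefl _)
      have h3 : a h' h = 0 := if_neg (by rw [h1]; exact lt_irrefl _)
      have h4 : om (ex (Y h)) (ex (Y h')) = 0 := by
        refine ker_isotropic (f (c h)) (hf.surj _) (hYk h) ?_
        rw [h1]
        exact hYk h'
      rw [h2, h3, h4]
      ring
    · have h2 : a h h' = 0 := if_neg (not_lt.2 h1.le)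
      have h3 : a h' h = -om (ex (Y h')) (ex (Y h)) := if_pos h1
      rw [h2, h3, om_swap (ex (Y h)) (ex (Y h'))]
      ring
  let z : Fin g ⊕ Fin g → SurfaceGroup g := Sum.elim X fun h => Y h * W h
  have hgram : ∀ r s, om (ex (z r)) (ex (z s)) = Jm g r s := by
    intro r s
    rcases r with h | h <;> rcases s with h' | h'
    · exact gXX h h'
    · show om (ex (X h)) (ex (Y h' * W h')) = (1 : Matrix (Fin g) (Fin g) ℤ) h h'
      rw [ex_mul, om_add_right, gXY, gXW, add_zero, Matrix.one_apply]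
    · show om (ex (Y h * W h)) (ex (X h')) = (-1 : Matrix (Fin g) (Fin g) ℤ) h h'
      rw [om_swap, ex_mul, om_add_right, gXY, gXW, add_zero, Matrix.neg_apply, Matrix.one_apply]
      exact congrArg _ (if_congr ⟨fun h => h.symm, fun h => h.symm⟩ rfl rfl)
    · show om (ex (Y h * W h)) (ex (Y h' * W h')) = 0
      rw [ex_mul, ex_mul, om_add_left, om_add_right, om_add_right, gWY, gWW,
        om_swap (ex (W h')) (ex (Y h)), gWY]
      have := gYY h h'
      linarith
  refine ⟨z, ⟨?_, ?_⟩, hgram⟩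
  · intro i j hij
    rcases j with h | h
    · exact MonoidHom.mem_ker.1 (hXk h i (Ne.symm hij))
    · have h1 : c h = i := hij
      subst h1
      exact MonoidHom.mem_ker.1 (mul_mem (hYk h) (hWk h))
  · rw [eq_top_iff]
    intro x _
    have h1 : (Matrix.of fun r s => om (ex (z r)) (ex (z s))) * (-Jm g) = 1 := by
      have h2 : (Matrix.of fun r s => om (ex (z r)) (ex (z s))) = Jm g := by
        ext r s
        exact hgram r s
      rw [h2, Jm_sq]
    obtain ⟨b, hb⟩ := span_of_gram (fun r => ex (z r)) (-Jm g) h1 (ex x)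
    have h2 : ex x ∈ exS (closure (Set.range z)) := by
      rw [hb]
      refine AddSubgroup.sum_mem _ fun r _ => ?_
      have h3 : ex (z r) ∈ exS (closure (Set.range z)) := ⟨z r, subset_closure ⟨r, rfl⟩, rfl⟩
      exact zsmul_mem h3 _
    obtain ⟨y, hy, hyx⟩ := h2
    have h4 : x = y * (y⁻¹ * x) := by group
    rw [h4]
    exact mul_mem_sup hy (ex_eq hyx)

/-- Adapted generators of the free group whose product of commutators is the boundary word modulo
the second term of the lower central series. -/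
theorem exists_basis (hf : NT.IsTrisection g k f) (c : Fin g → Fin 3)
    (hc : ∀ l, Fintype.card {h // c h = l} = k l) :
    ∃ z : Fin g ⊕ Fin g → FreeGroup (Fin g ⊕ Fin g),
      Adapted c (fun i => (f i).comp (TR.pr g)) z ∧
      NT.rho z * (TR.rho g)⁻¹ ∈ lcs (FreeGroup (Fin g ⊕ Fin g)) 2 := by
  obtain ⟨z, h1, h2⟩ := exists_symp hf c hc
  choose y hy using fun j => TR.pr_surj g (z j)
  have h3 : ∀ r s, om (exF (y r)) (exF (y s)) = Jm g r s := by
    intro r s
    show om (ex (TR.pr g (y r))) (ex (TR.pr g (y s))) = _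
    rw [hy, hy]
    exact h2 r s
  refine ⟨y, ⟨?_, ?_⟩, rho_symp y h3⟩
  · intro i j hij
    show f i (TR.pr g (y j)) = 1
    rw [hy]
    exact h1.ker i j hij
  · rw [eq_top_iff]
    intro x _
    have h4 : (Matrix.of fun r s => om (exF (y r)) (exF (y s))) * (-Jm g) = 1 := by
      have h5 : (Matrix.of fun r s => om (exF (y r)) (exF (y s))) = Jm g := by
        ext r s
        exact h3 r s
      rw [h5, Jm_sq]
    obtain ⟨b, hb⟩ := span_of_gram (fun r => exF (y r)) (-Jm g) h4 (exF x)
    have h5 : ∃ w ∈ closure (Set.range y), exF w = exF x := by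
      have h6 : exF x ∈ exS ((closure (Set.range y)).map (TR.pr g)) := by
        rw [hb]
        refine AddSubgroup.sum_mem _ fun r _ => ?_
        have h7 : exF (y r) ∈ exS ((closure (Set.range y)).map (TR.pr g)) :=
          ⟨TR.pr g (y r), mem_map_of_mem _ (subset_closure ⟨r, rfl⟩), rfl⟩
        exact zsmul_mem h7 _
      obtain ⟨_, ⟨w, hw, rfl⟩, h8⟩ := h6
      exact ⟨w, hw, h8⟩
    obtain ⟨w, hw, hwx⟩ := h5
    have h6 : w⁻¹ * x ∈ lcs (FreeGroup (Fin g ⊕ Fin g)) 1 := by
      have h7 : Abelianization.of (w⁻¹ * x) = 1 := by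
        rw [map_mul, map_inv, hom_exF Abelianization.of w, hom_exF Abelianization.of x, hwx,
          inv_mul_cancel]
      exact (QuotientGroup.eq_one_iff _).1 h7
    have h7 : x = w * (w⁻¹ * x) := by group
    rw [h7]
    exact mul_mem_sup hw h6

end

end Pool.Agent.NR
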