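import Pool.Agent.Lib_helper81.NT.Core

/-!
# Nilpotent trisections relative to the boundary: the induction step

This is the argument of helper81 (`Pool.Agent.Lib_helper81.NT.Core`) for a product of commutators which
is a given element instead of the neutral one.
-/

namespace Pool.Agent.NR

open Subgroup Pool.Agent.NT
open scoped commutatorElement IsMulCommutative

section

variable {g : ℕ} {c : Fin g → Fin 3} {P : Type} [Group P] {f : Fin 3 → P →* FreeGroup (Fin g)}
  {z : Fin g ⊕ Fin g → P}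

/-- The induction step relative to an element `r` killed by all `f i`: adapted generators whose product
of commutators is `r` modulo `lcs P (m + 1)` can be changed by elements of `lcs P m` so that it is `r`
modulo `lcs P (m + 2)`. -/
theorem core_step (hf : ∀ i, Function.Surjective (f i)) (hz : Adapted c f z) {m : ℕ} (hm : 1 ≤ m)
    {r : P} (hr : ∀ i, f i r = 1) (hρ : rho z * r⁻¹ ∈ lcs P (m + 1)) :
    ∃ z', Adapted c f z' ∧ (∀ j, (z j)⁻¹ * z' j ∈ lcs P m) ∧ rho z' * r⁻¹ ∈ lcs P (m + 2) := by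
  classical
  -- lift to the free group
  have hφ := lift_surjAb hz.gen
  have h1 := surjAb_comm hφ (m + 1) hρ
  rw [mem_sup_of_normal_right] at h1
  obtain ⟨_, ⟨s, hs, rfl⟩, t, ht, hst⟩ := h1
  have hs' : s ∈ lcs (FreeGroup (Fin g ⊕ Fin g)) (m + 1) := hs
  -- the letters
  have h2 : ∀ i, epsF c i s ∈ lcs (FreeGroup (Fin g)) (m + 2) := by
    intro i
    refine gr_inj (of_gen (Fin g) 1) (psi_surjAb hf hz i) (lcs_map _ _ hs') ?_
    rw [← psi_eps hz.ker]
    have h3 : f i (rho z) = 1 := by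
      rw [rho_map, rho]
      refine List.prod_eq_one fun x hx => ?_
      rw [List.mem_ofFn] at hx
      obtain ⟨h, rfl⟩ := hx
      by_cases h4 : hit c i (Sum.inl h)
      · rw [hz.ker i _ h4, commutatorElement_one_left]
      · rw [← hit_swap] at h4
        rw [hz.ker i (Sum.inr h) h4, commutatorElement_one_right]
    have h4 : f i (FreeGroup.lift z s) = (f i t)⁻¹ := by
      have h5 : f i (rho z * r⁻¹) = 1 := by rw [map_mul, map_inv, h3, hr, inv_one, mul_one]
      rw [← hst, map_mul] at h5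
      exact eq_inv_of_mul_eq_one_left h5
    rw [h4]
    exact inv_mem (lcs_map (f i) _ ht)
  have h3 : ∀ i, ((secF c i).comp (epsF c i)) s ∈ lcs (FreeGroup (Fin g ⊕ Fin g)) (m + 2) :=
    fun i => lcs_map (secF c i) _ (h2 i)
  have h4 : ∀ i j, hit c i j → ((secF c i).comp (epsF c i)) (FreeGroup.of j) = 1 := by
    intro i j hj
    rw [MonoidHom.comp_apply, epsF_hit c hj, map_one]
  have h5 : ∀ i j, ¬ hit c i j → ((secF c i).comp (epsF c i)) (FreeGroup.of j) =
      FreeGroup.of j := by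
    intro i j hj
    rw [MonoidHom.comp_apply, epsF_not c hj, secF, FreeGroup.lift_apply_of, nh_hd c hj]
  have h6 : s ∈ closure (Cs (FreeGroup.of : Fin g ⊕ Fin g → _) (fun _ => True) (m + 1)) ⊔
      lcs (FreeGroup (Fin g ⊕ Fin g)) (m + 2) := by
    have h7 := gen FreeGroup.of (of_gen (Fin g ⊕ Fin g) 1) (m + 1) hs'
    refine (sup_le_sup_right (Subgroup.closure_mono ?_) _ : _ ≤ _) h7
    rintro _ ⟨i, l, hl, rfl⟩
    exact ⟨i, l, hl, trivial, rfl⟩
  have h7 := col_step (h4 2) (h5 2) (col_step (h4 1) (h5 1) (col_step (h4 0) (h5 0) h6 (h3 0))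
    (h3 1)) (h3 2)
  -- back to `P`
  have h8 : rho z * r⁻¹ ∈ closure (Cs z (fun L => ∀ i : Fin 3, ∃ k ∈ L, hit c i k) (m + 1)) ⊔
      lcs P (m + 2) := by
    rw [mem_sup_of_normal_right] at h7
    obtain ⟨s', hs', t', ht', hst'⟩ := h7
    have h9 : FreeGroup.lift z s' ∈
        closure (Cs z (fun L => ∀ i : Fin 3, ∃ k ∈ L, hit c i k) (m + 1)) := by
      have h10 := mem_map_of_mem (FreeGroup.lift z) hs'
      rw [MonoidHom.map_closure] at h10
      refine Subgroup.closure_mono ?_ h10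
      rintro _ ⟨_, ⟨i, l, hl, hQ, rfl⟩, rfl⟩
      refine ⟨i, l, hl, ?_, ?_⟩
      · intro k
        fin_cases k
        · exact hQ.1.1.2
        · exact hQ.1.2
        · exact hQ.2
      · rw [cm_map]
        congr 1
        funext j
        exact FreeGroup.lift_apply_of
    rw [← hst, ← hst', map_mul, mul_assoc]
    exact mul_mem_sup h9 (mul_mem (lcs_map _ _ ht') ht)
  -- the changes
  have h9 : closure (Cs z (fun L => ∀ i : Fin 3, ∃ k ∈ L, hit c i k) (m + 1)) ≤
      (((Tht c f z m).range).map (center (P ⧸ lcs P (m + 2))).subtype).comap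
        (qm P (m + 2)) := by
    rw [closure_le]
    rintro _ ⟨i0, l, hl, hQ, rfl⟩
    match l, hl, hQ with
    | j :: l, hl, hQ =>
      have hl' : l.length = m := by
        rw [List.length_cons] at hl
        omega
      obtain ⟨hw1, hw2⟩ := allowed_step hz.ker i0 j l hl' hQ
      show qm P (m + 2) (cm z i0 (j :: l)) ∈
        ((Tht c f z m).range).map (center (P ⧸ lcs P (m + 2))).subtype
      rcases j with h | h
      · -- `[w, a_h]`, change `b_h` by `w⁻¹`
        refine ⟨_, ⟨(Pi.mulSingle (Sum.inr h) (⟨⟨cm z i0 l, hw1⟩, hw2⟩ :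
          alw c f m (Sum.inr h)))⁻¹, rfl⟩, ?_⟩
        rw [map_inv, map_inv]
        show ((Tht c f z m (Pi.mulSingle (Sum.inr h) _) : center (P ⧸ lcs P (m + 2))) :
          P ⧸ lcs P (m + 2))⁻¹ = _
        rw [Tht_single]
        show (qm P (m + 2) ⁅cm z i0 l, z (Sum.inl h)⁆⁻¹)⁻¹ = _
        rw [map_inv, inv_inv]
        rfl
      · refine ⟨_, ⟨Pi.mulSingle (Sum.inl h) (⟨⟨cm z i0 l, hw1⟩, hw2⟩ :
          alw c f m (Sum.inl h)), rfl⟩, ?_⟩
        show ((Tht c f z m (Pi.mulSingle (Sum.inl h) _) : center (P ⧸ lcs P (m + 2))) :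
          P ⧸ lcs P (m + 2)) = _
        rw [Tht_single]
        rfl
  have h10 : qm P (m + 2) (rho z * r⁻¹) ∈
      ((Tht c f z m).range).map (center (P ⧸ lcs P (m + 2))).subtype := by
    rw [mem_sup_of_normal_right] at h8
    obtain ⟨s', hs', t', ht', hst'⟩ := h8
    rw [← hst', map_mul, qm_one.2 ht', mul_one]
    exact h9 hs'
  obtain ⟨_, ⟨v, rfl⟩, hv⟩ := inv_mem h10
  have hv' : ((Tht c f z m v : center (P ⧸ lcs P (m + 2))) : P ⧸ lcs P (m + 2)) =
      (qm P (m + 2) (rho z * r⁻¹))⁻¹ := hv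
  refine ⟨fun j => z j * ((v j : lcs P m) : P), ⟨?_, ?_⟩, ?_, ?_⟩
  · intro i j hj
    rw [map_mul, hz.ker i j hj, (v j).2 i hj, mul_one]
  · rw [eq_top_iff, ← hz.gen]
    refine sup_le ((closure_le _).2 ?_) le_sup_right
    rintro _ ⟨j, rfl⟩
    have h11 : z j = z j * ((v j : lcs P m) : P) * ((v j : lcs P m) : P)⁻¹ := by group
    show z j ∈ _
    rw [h11]
    exact mul_mem_sup (subset_closure ⟨j, rfl⟩) (inv_mem (lcs_le hm (v j : lcs P m).2))
  · intro j
    rw [inv_mul_cancel_left]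
    exact (v j : lcs P m).2
  · have h12 : qm P (m + 2) (rho fun j => z j * ((v j : lcs P m) : P)) = qm P (m + 2) r := by
      rw [rho_mod hm z fun j => (v j : lcs P m)]
      have h13 := mem_center_iff.1 (Tht c f z m v).2 (qm P (m + 2) (rho z))
      refine h13.trans ?_
      rw [hv', map_mul, mul_inv_rev, map_inv, inv_inv, inv_mul_cancel_right]
    rw [← qm_one, map_mul, map_inv, h12, mul_inv_cancel]

end

end Pool.Agent.NR
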