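import Pool.Agent.Lib_helper51.NR.Basis

/-!
# Group trisections of homotopy 4-spheres are standard in all nilpotent groups, relative to the boundary

Nothing is stabilised. The induction is helper81's (`Pool.Agent.Lib_helper81.NT`), here on the free group
and relative to the boundary word.
-/

set_option autoImplicit false

namespace Pool.Agent.NR

open Subgroup Pool.Agent.NT
open scoped commutatorElement

section

variable {g : ℕ} {c : Fin g → Fin 3}
  {f : Fin 3 → FreeGroup (Fin g ⊕ Fin g) →* FreeGroup (Fin g)}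

theorem exists_seq (hf : TR.IsTrisection c f) :
    ∃ z : ℕ → Fin g ⊕ Fin g → FreeGroup (Fin g ⊕ Fin g), (∀ n, Adapted c f (z n)) ∧
      (∀ n, NT.rho (z n) * (TR.rho g)⁻¹ ∈ lcs (FreeGroup (Fin g ⊕ Fin g)) (n + 2)) ∧
      ∀ n j, (z n j)⁻¹ * z (n + 1) j ∈ lcs (FreeGroup (Fin g ⊕ Fin g)) (n + 1) := by
  have hρ : ∀ i, f i (TR.rho g) = 1 := fun i => (hf.1 i).2
  have hs : ∀ i, Function.Surjective (f i) := fun i => (hf.1 i).1
  have h0 : ∃ z, Adapted c f z ∧
      NT.rho z * (TR.rho g)⁻¹ ∈ lcs (FreeGroup (Fin g ⊕ Fin g)) 2 := by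
    obtain ⟨f', hf'⟩ := TR.tri_descend hf
    subst hf'
    exact exists_basis (TR.tri_old (fun _ => rfl) hf) c fun _ => rfl
  have step : ∀ n (z : {z : Fin g ⊕ Fin g → FreeGroup (Fin g ⊕ Fin g) // Adapted c f z ∧
      NT.rho z * (TR.rho g)⁻¹ ∈ lcs (FreeGroup (Fin g ⊕ Fin g)) (n + 2)}),
      ∃ z' : {z : Fin g ⊕ Fin g → FreeGroup (Fin g ⊕ Fin g) // Adapted c f z ∧
        NT.rho z * (TR.rho g)⁻¹ ∈ lcs (FreeGroup (Fin g ⊕ Fin g)) (n + 1 + 2)},
      ∀ j, (z.1 j)⁻¹ * z'.1 j ∈ lcs (FreeGroup (Fin g ⊕ Fin g)) (n + 1) := by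
    rintro n ⟨z, h1, h2⟩
    obtain ⟨z', h3, h4, h5⟩ := core_step hs h1 (m := n + 1) (Nat.le_add_left 1 n) hρ h2
    exact ⟨⟨z', h3, h5⟩, h4⟩
  choose nx hnx using step
  obtain ⟨z0, h0, h0'⟩ := h0
  let Z : ∀ n, {z : Fin g ⊕ Fin g → FreeGroup (Fin g ⊕ Fin g) // Adapted c f z ∧
      NT.rho z * (TR.rho g)⁻¹ ∈ lcs (FreeGroup (Fin g ⊕ Fin g)) (n + 2)} :=
    fun n => Nat.rec ⟨z0, h0, h0'⟩ (fun n z => nx n z) n
  exact ⟨fun n => (Z n).1, fun n => (Z n).2.1, fun n => (Z n).2.2, fun n j => hnx n (Z n) j⟩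

/-- two homomorphisms which agree on the letters modulo a normal subgroup agree modulo it -/
theorem agree {J G : Type} [Group G] {N : Subgroup G} [N.Normal] {α β : FreeGroup J →* G}
    (h : ∀ j, (β (FreeGroup.of j))⁻¹ * α (FreeGroup.of j) ∈ N) (x : FreeGroup J) :
    α x * (β x)⁻¹ ∈ N := by
  have h1 : (QuotientGroup.mk' N).comp α = (QuotientGroup.mk' N).comp β := by
    refine FreeGroup.ext_hom _ _ fun j => ?_
    exact (QuotientGroup.eq.2 (h j)).symm
  have h2 : QuotientGroup.mk' N (α x) = QuotientGroup.mk' N (β x) := DFunLike.congr_fun h1 x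
  refine (QuotientGroup.eq_one_iff _).1 ?_
  show QuotientGroup.mk' N (α x * (β x)⁻¹) = 1
  rw [map_mul, map_inv, h2, mul_inv_cancel]

theorem std_ker (c : Fin g → Fin 3) (i : Fin 3) (N : Subgroup (FreeGroup (Fin g ⊕ Fin g)))
    [N.Normal] (h : ∀ j, hit c i j → FreeGroup.of j ∈ N) : (TR.std c i).ker ≤ N := by
  intro x hx
  have h1 : QuotientGroup.mk' N = ((QuotientGroup.mk' N).comp (secF c i)).comp (TR.std c i) := by
    refine FreeGroup.ext_hom _ _ fun j => ?_
    rw [MonoidHom.comp_apply, MonoidHom.comp_apply]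
    rcases j with j | j
    · by_cases hj : c j = i
      · have h2 : TR.std c i (FreeGroup.of (Sum.inl j)) = FreeGroup.of j := by
          rw [TR.std, FreeGroup.lift_apply_of]
          exact if_pos hj
        rw [h2, secF, FreeGroup.lift_apply_of, nh, if_pos hj]
      · have h2 : TR.std c i (FreeGroup.of (Sum.inl j)) = 1 := by
          rw [TR.std, FreeGroup.lift_apply_of]
          exact if_neg hj
        rw [h2, map_one, map_one]
        exact (QuotientGroup.eq_one_iff _).2 (h (Sum.inl j) hj)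
    · by_cases hj : c j = i
      · have h2 : TR.std c i (FreeGroup.of (Sum.inr j)) = 1 := by
          rw [TR.std, FreeGroup.lift_apply_of]
          exact if_pos hj
        rw [h2, map_one, map_one]
        exact (QuotientGroup.eq_one_iff _).2 (h (Sum.inr j) hj)
      · have h2 : TR.std c i (FreeGroup.of (Sum.inr j)) = FreeGroup.of j := by
          rw [TR.std, FreeGroup.lift_apply_of]
          exact if_neg hj
        rw [h2, secF, FreeGroup.lift_apply_of, nh, if_neg hj]
  have h2 := DFunLike.congr_fun h1 x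
  rw [MonoidHom.comp_apply, MonoidHom.mem_ker.1 hx, map_one] at h2
  exact (QuotientGroup.eq_one_iff x).1 h2

theorem std_sec' (c : Fin g → Fin 3) (i : Fin 3) (v : FreeGroup (Fin g)) :
    TR.std c i (secF c i v) = v := by
  have h : (TR.std c i).comp (secF c i) = MonoidHom.id _ := by
    refine FreeGroup.ext_hom _ _ fun j => ?_
    rw [MonoidHom.comp_apply, secF, FreeGroup.lift_apply_of, nh]
    split_ifs with hj
    · rw [TR.std, FreeGroup.lift_apply_of]
      exact if_pos hj
    · rw [TR.std, FreeGroup.lift_apply_of]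
      exact if_neg hj
  exact DFunLike.congr_fun h v

theorem lift_endo {z : Fin g ⊕ Fin g → FreeGroup (Fin g ⊕ Fin g)} (hz : Adapted c f z) (m : ℕ)
    (x : FreeGroup (Fin g ⊕ Fin g)) :
    FreeGroup.lift z x ∈ lcs (FreeGroup (Fin g ⊕ Fin g)) m ↔
      x ∈ lcs (FreeGroup (Fin g ⊕ Fin g)) m :=
  ⟨fun h => lcs_inj (of_gen (Fin g ⊕ Fin g) 1) (lift_surjAb hz.gen) m h, fun h => lcs_map _ _ h⟩

theorem lift_onto {z : Fin g ⊕ Fin g → FreeGroup (Fin g ⊕ Fin g)} (hz : Adapted c f z) (m : ℕ)
    (y : FreeGroup (Fin g ⊕ Fin g)) :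
    ∃ x, FreeGroup.lift z x * y⁻¹ ∈ lcs (FreeGroup (Fin g ⊕ Fin g)) m := by
  obtain ⟨x, hx⟩ := surjAb_quot (lift_surjAb hz.gen) m (qm _ m y)
  refine ⟨x, qm_one.1 ?_⟩
  rw [map_mul, map_inv]
  have h1 : qm (FreeGroup (Fin g ⊕ Fin g)) m (FreeGroup.lift z x) = qm _ m y := hx
  rw [h1, mul_inv_cancel]

theorem lift_ker (hf : ∀ i, Function.Surjective (f i))
    {z : Fin g ⊕ Fin g → FreeGroup (Fin g ⊕ Fin g)} (hz : Adapted c f z) (m : ℕ) (i : Fin 3) :
    (TR.std c i).ker.map (FreeGroup.lift z) ⊔ lcs (FreeGroup (Fin g ⊕ Fin g)) m =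
      (f i).ker ⊔ lcs (FreeGroup (Fin g ⊕ Fin g)) m := by
  have h1 : (TR.std c i).ker ≤ (f i).ker.comap (FreeGroup.lift z) := by
    refine std_ker c i _ fun j hj => ?_
    rw [mem_comap, FreeGroup.lift_apply_of]
    exact hz.ker i j hj
  apply le_antisymm
  · exact sup_le_sup_right (Subgroup.map_le_iff_le_comap.2 h1) _
  · refine sup_le ?_ le_sup_right
    intro y hy
    obtain ⟨x, hx⟩ := lift_onto hz m y
    -- `x = sec v * t` with `t` in the standard kernel
    set v := TR.std c i x with hv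
    set t := (secF c i v)⁻¹ * x with ht
    have ht1 : t ∈ (TR.std c i).ker := by
      rw [MonoidHom.mem_ker, ht, map_mul, map_inv, std_sec', hv, inv_mul_cancel]
    have hxt : x = secF c i v * t := by rw [ht, mul_inv_cancel_left]
    have h2 : f i (FreeGroup.lift z t) = 1 := MonoidHom.mem_ker.1 (h1 ht1)
    have h3 : f i (FreeGroup.lift z x * y⁻¹) = psi c f z i v := by
      rw [map_mul, map_inv, MonoidHom.mem_ker.1 hy, inv_one, mul_one, hxt, map_mul, map_mul, h2,
        mul_one, psi_eps hz.ker]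
      have h4 : epsF c i (secF c i v) = v := by
        have h7 : (epsF c i).comp (secF c i) = MonoidHom.id _ := by
          refine FreeGroup.ext_hom _ _ fun h => ?_
          rw [MonoidHom.comp_apply, secF, FreeGroup.lift_apply_of, epsF_not c (nh_not_hit c i h),
            hd_nh]
          rfl
        exact DFunLike.congr_fun h7 v
      rw [h4]
    have h4 := lcs_map (f i) m hx
    rw [h3] at h4
    have h5 : v ∈ lcs (FreeGroup (Fin g)) m := lcs_inj (of_gen (Fin g) 1) (psi_surjAb hf hz i) m h4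
    have h6 : FreeGroup.lift z (secF c i v) ∈ lcs (FreeGroup (Fin g ⊕ Fin g)) m :=
      lcs_map _ _ (lcs_map (secF c i) m h5)
    have h7 : y = FreeGroup.lift z t *
        ((FreeGroup.lift z t)⁻¹ * ((FreeGroup.lift z x * y⁻¹)⁻¹ *
          FreeGroup.lift z (secF c i v)) * FreeGroup.lift z t) := by
      have h8 : FreeGroup.lift z x = FreeGroup.lift z (secF c i v) * FreeGroup.lift z t := by
        rw [← map_mul, ← hxt]
      rw [h8]
      group
    rw [h7]
    refine mul_mem_sup (mem_map_of_mem _ ht1) ?_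
    have h8 : (FreeGroup.lift z x * y⁻¹)⁻¹ * FreeGroup.lift z (secF c i v) ∈
        lcs (FreeGroup (Fin g ⊕ Fin g)) m := mul_mem (inv_mem hx) h6
    have h9 : (lcs (FreeGroup (Fin g ⊕ Fin g)) m).Normal := inferInstance
    have h10 := h9.conj_mem _ h8 (FreeGroup.lift z t)⁻¹
    rw [inv_inv] at h10
    exact h10

/-- **Group trisections of homotopy 4-spheres are pronilpotently standard over the integers, relative to
the boundary, without stabilisation.** There are endomorphisms `φ n` of the free group which induce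
automorphisms of all nilpotent quotients, which carry the kernels of the three standard maps into the
kernels of the maps `f i`, onto them modulo every term of the lower central series, which fix the boundary
word modulo the term `n + 2`, and which are compatible. -/
theorem nilp (hf : TR.IsTrisection c f) :
    ∃ φ : ℕ → FreeGroup (Fin g ⊕ Fin g) →* FreeGroup (Fin g ⊕ Fin g), ∀ n,
      (∀ m x, φ n x ∈ lcs (FreeGroup (Fin g ⊕ Fin g)) m ↔
        x ∈ lcs (FreeGroup (Fin g ⊕ Fin g)) m) ∧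
      (∀ m y, ∃ x, φ n x * y⁻¹ ∈ lcs (FreeGroup (Fin g ⊕ Fin g)) m) ∧
      (∀ x, φ (n + 1) x * (φ n x)⁻¹ ∈ lcs (FreeGroup (Fin g ⊕ Fin g)) (n + 1)) ∧
      φ n (TR.rho g) * (TR.rho g)⁻¹ ∈ lcs (FreeGroup (Fin g ⊕ Fin g)) (n + 2) ∧
      ∀ i, (TR.std c i).ker.map (φ n) ≤ (f i).ker ∧
        ∀ m, (TR.std c i).ker.map (φ n) ⊔ lcs (FreeGroup (Fin g ⊕ Fin g)) m =
          (f i).ker ⊔ lcs (FreeGroup (Fin g ⊕ Fin g)) m := by
  obtain ⟨z, h1, h2, h3⟩ := exists_seq hf
  refine ⟨fun n => FreeGroup.lift (z n), fun n => ⟨fun m x => lift_endo (h1 n) m x,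
    fun m y => lift_onto (h1 n) m y, fun x => agree (fun j => ?_) x, ?_, fun i => ⟨?_, fun m =>
      lift_ker (fun i => (hf.1 i).1) (h1 n) m i⟩⟩⟩
  · rw [FreeGroup.lift_apply_of, FreeGroup.lift_apply_of]
    exact h3 n j
  · have h4 : FreeGroup.lift (z n) (TR.rho g) = NT.rho (z n) := by
      rw [← TR.rho_of]
      congr 1
      funext j
      exact FreeGroup.lift_apply_of
    rw [h4]
    exact h2 n
  · refine Subgroup.map_le_iff_le_comap.2 (std_ker c i _ fun j hj => ?_)
    rw [mem_comap, FreeGroup.lift_apply_of]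
    exact (h1 n).ker i j hj

end

/-! ## The bijections, natural in all nilpotent groups -/

section

variable {g : ℕ} {c : Fin g → Fin 3}
  {f : Fin 3 → FreeGroup (Fin g ⊕ Fin g) →* FreeGroup (Fin g)}

theorem kills {G E : Type} [Group G] [Group E] {n : ℕ} (hE : lcs E n = ⊥) (q : G →* E) {x : G}
    (hx : x ∈ lcs G n) : q x = 1 := by
  have h := lcs_map q n hx
  rw [hE] at h
  exact mem_bot.1 h

theorem map_sup_kill {G E : Type} [Group G] [Group E] {n : ℕ} (hE : lcs E n = ⊥) (q : G →* E)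
    (A : Subgroup G) : (A ⊔ lcs G n).map q = A.map q := by
  rw [Subgroup.map_sup]
  refine sup_eq_left.2 ?_
  rintro _ ⟨x, hx, rfl⟩
  rw [kills hE q hx]
  exact one_mem _

/-- **The same in terms of homomorphisms**: there are bijections of the sets of homomorphisms from the
free group to all nilpotent groups, natural in the group, which preserve the value at the boundary word
and carry the images of the kernels of the `f i` to the images of the kernels of the standard maps. -/
theorem nilpotent_natural (hf : TR.IsTrisection c f) :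
    ∃ Φ : (E : Type) → [Group E] → [Group.IsNilpotent E] →
        (FreeGroup (Fin g ⊕ Fin g) →* E) ≃ (FreeGroup (Fin g ⊕ Fin g) →* E),
      (∀ (E : Type) [Group E] [Group.IsNilpotent E] (q : FreeGroup (Fin g ⊕ Fin g) →* E),
        Φ E q (TR.rho g) = q (TR.rho g) ∧
          ∀ i, (TR.std c i).ker.map (Φ E q) = (f i).ker.map q) ∧
      ∀ (E E' : Type) [Group E] [Group.IsNilpotent E] [Group E'] [Group.IsNilpotent E']
        (α : E →* E') (q : FreeGroup (Fin g ⊕ Fin g) →* E),
        Φ E' (α.comp q) = α.comp (Φ E q) := by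
  obtain ⟨φ, hφ⟩ := nilp hf
  have hcl : ∀ (E : Type) [Group E] [Group.IsNilpotent E], lcs E (Group.nilpotencyClass E) = ⊥ :=
    fun E _ _ => Subgroup.lowerCentralSeries_nilpotencyClass
  -- the maps agree from the class on
  have hst : ∀ (E : Type) [Group E] (n : ℕ), lcs E n = ⊥ → ∀ (q : FreeGroup (Fin g ⊕ Fin g) →* E)
      (k : ℕ), q.comp (φ (n + k)) = q.comp (φ n) := by
    intro E _ n hE q k
    induction k with
    | zero => rfl
    | succ k ih =>
      rw [← ih]
      refine MonoidHom.ext fun x => ?_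
      show q (φ (n + k + 1) x) = q (φ (n + k) x)
      have h1 := (hφ (n + k)).2.2.1 x
      have h2 : q (φ (n + k + 1) x * (φ (n + k) x)⁻¹) = 1 :=
        kills hE q (lcs_le (by omega) h1)
      rw [map_mul, map_inv] at h2
      exact mul_inv_eq_one.1 h2
  have hst' : ∀ (E : Type) [Group E] (n k : ℕ), lcs E n = ⊥ → lcs E k = ⊥ →
      ∀ q : FreeGroup (Fin g ⊕ Fin g) →* E, q.comp (φ n) = q.comp (φ k) := by
    intro E _ n k h1 h2 q
    rcases le_total n k with h | h
    · obtain ⟨d, rfl⟩ := Nat.exists_eq_add_of_le h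
      exact (hst E n h1 q d).symm
    · obtain ⟨d, rfl⟩ := Nat.exists_eq_add_of_le h
      exact hst E k h2 q d
  -- inverses
  have hinv : ∀ n, ∃ χ : FreeGroup (Fin g ⊕ Fin g) →* FreeGroup (Fin g ⊕ Fin g),
      (∀ x, φ n (χ x) * x⁻¹ ∈ lcs (FreeGroup (Fin g ⊕ Fin g)) n) ∧
      ∀ x, χ (φ n x) * x⁻¹ ∈ lcs (FreeGroup (Fin g ⊕ Fin g)) n := by
    intro n
    choose y hy using fun j : Fin g ⊕ Fin g => (hφ n).2.1 n (FreeGroup.of j)
    have h1 : ∀ x, φ n (FreeGroup.lift y x) * x⁻¹ ∈ lcs (FreeGroup (Fin g ⊕ Fin g)) n := by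
      intro x
      refine agree (α := (φ n).comp (FreeGroup.lift y)) (β := MonoidHom.id _) (fun j => ?_) x
      show (FreeGroup.of j)⁻¹ * φ n (FreeGroup.lift y (FreeGroup.of j)) ∈ _
      rw [FreeGroup.lift_apply_of]
      have h9 : (lcs (FreeGroup (Fin g ⊕ Fin g)) n).Normal := inferInstance
      exact h9.mem_comm (hy j)
    refine ⟨FreeGroup.lift y, h1, fun x => ?_⟩
    have h2 := h1 (φ n x)
    rw [← map_inv, ← map_mul, (hφ n).1 n] at h2
    exact h2
  choose χ hχ1 hχ2 using hinv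
  refine ⟨fun E _ _ => ⟨fun q => q.comp (φ (Group.nilpotencyClass E)),
    fun q => q.comp (χ (Group.nilpotencyClass E)), fun q => ?_, fun q => ?_⟩, ?_, ?_⟩
  · refine MonoidHom.ext fun x => ?_
    have h1 := kills (hcl E) q (hχ1 (Group.nilpotencyClass E) x)
    rw [map_mul, map_inv] at h1
    exact mul_inv_eq_one.1 h1
  · refine MonoidHom.ext fun x => ?_
    have h1 := kills (hcl E) q (hχ2 (Group.nilpotencyClass E) x)
    rw [map_mul, map_inv] at h1
    exact mul_inv_eq_one.1 h1
  · intro E _ _ q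
    refine ⟨?_, fun i => ?_⟩
    · have h1 := kills (hcl E) q (lcs_le (Nat.le_add_right _ 2)
        (hφ (Group.nilpotencyClass E)).2.2.2.1)
      rw [map_mul, map_inv] at h1
      exact mul_inv_eq_one.1 h1
    · show (TR.std c i).ker.map (q.comp (φ (Group.nilpotencyClass E))) = _
      rw [← Subgroup.map_map, ← map_sup_kill (hcl E) q, ((hφ _).2.2.2.2 i).2 _,
        map_sup_kill (hcl E) q]
  · intro E E' _ _ _ _ α q
    show (α.comp q).comp (φ (Group.nilpotencyClass E')) =
      α.comp (q.comp (φ (Group.nilpotencyClass E)))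
    rcases le_total (Group.nilpotencyClass E') (Group.nilpotencyClass E) with h | h
    · obtain ⟨d, hd⟩ := Nat.exists_eq_add_of_le h
      rw [hd, ← MonoidHom.comp_assoc]
      exact (hst E' _ (hcl E') (α.comp q) d).symm
    · obtain ⟨d, hd⟩ := Nat.exists_eq_add_of_le h
      rw [hd, MonoidHom.comp_assoc, hst E _ (hcl E) q d]

end

end Pool.Agent.NR
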